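import Pool.Agent.K351.Stone
import Pool.Agent.K351.Separation

/-!
# Orbits filling all faces of size `ℵ₁` are not normal

If every map `M → X` with `M ⊆ G`, `|M| ≤ ℵ₁`, is the restriction of a translate of `f`
(Korovin mappings have this property for countable `M`), then the orbit of `f` is not normal.
The space `X` is arbitrary, with at least two points, and so is the abelian group `G`.
-/

namespace Pool.Agent.Results.MP_bc88c0_gt.AlephOneFull

open Cardinal Pool.Agent.K351

universe u v

theorem result {G : Type u} {X : Type v} [CommGroup G] [TopologicalSpace X] [Nontrivial X]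
    (f : G → X)
    (hf : ∀ M : Set G, #M ≤ ℵ₁ → ∀ a : G → X, ∃ g : G, ∀ x ∈ M, f (x * g) = a x) :
    ¬ T4Space (orbit f) := by
  intro h
  have hf' : FullBelow (Order.succ (ℵ₁ : Cardinal.{u})) f :=
    fun M hM a => hf M (Order.lt_succ_iff.1 hM) a
  obtain ⟨O, o, c, hO, ho, hc⟩ :=
    exists_open_of_T1 (aleph0_lt_aleph_one.le.trans (Order.le_succ _)) hf'
  exact not_normal_of_full_aleph_one hf' hO ho hc inferInstance

end Pool.Agent.Results.MP_bc88c0_gt.AlephOneFull
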