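import Pool.Agent.K351.Jones

/-!
# A cardinal inequality for normal Korovin orbits

If `X` has a countable base and some Korovin orbit in `X^G` is normal, then
`2^ℵ₁ ≤ |G|^ℵ₀`. More generally, the same holds with `ℵ₀` replaced by any infinite
cardinal `μ`.
-/

namespace Pool.Agent.Results.MP_bc88c0_gt.JonesInequality

open Cardinal Pool.Agent.K351 TopologicalSpace

universe u v

theorem result {G : Type u} {X : Type v} [CommGroup G] [TopologicalSpace X] [Nontrivial X]
    (μ : Cardinal.{u}) (hμ : ℵ₀ ≤ μ) {β : Type u} (hβ : #β ≤ μ) (b : β → Set X)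
    (hb : IsTopologicalBasis (Set.range b)) (f : G → X)
    (hf : ∀ M : Set G, #M ≤ μ → ∀ a : G → X, ∃ g : G, ∀ x ∈ M, f (x * g) = a x)
    (hn : T4Space (orbit f)) :
    2 ^ Order.succ μ ≤ #G ^ μ :=
  jones hμ (fun M hM a => hf M (Order.lt_succ_iff.1 hM) a) hβ b hb

end Pool.Agent.Results.MP_bc88c0_gt.JonesInequality
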