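import Pool.Agent.K351.Patch

/-!
# Normal Korovin orbits over small spaces are nowhere full at the next cardinal

If `X` has a countable base and the orbit of a Korovin mapping `f : G → X` is normal, then for
every `P ⊆ G` with `|P| = ℵ₁` and every pattern `p : P → X` some countable pattern `q` outside
`P` is not realised together with `p`. More generally with `ℵ₀` replaced by an infinite
cardinal `μ`.
-/

namespace Pool.Agent.Results.MP_bc88c0_gt.NowhereFull

open Cardinal Pool.Agent.K351 TopologicalSpace

universe u v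

theorem result {G : Type u} {X : Type v} [CommGroup G] [TopologicalSpace X] [Nontrivial X]
    (μ : Cardinal.{u}) (hμ : ℵ₀ ≤ μ) {β : Type u} (hβ : #β ≤ μ) (b : β → Set X)
    (hb : IsTopologicalBasis (Set.range b)) (f : G → X)
    (hf : ∀ M : Set G, #M ≤ μ → ∀ a : G → X, ∃ g : G, ∀ x ∈ M, f (x * g) = a x)
    (hn : T4Space (orbit f)) (P : Set G) (hP : #P = Order.succ μ) (p : G → X) :
    ∃ N : Set G, #N ≤ μ ∧ Disjoint N P ∧ ∃ q : G → X,
      ∀ g : G, ¬ ((∀ x ∈ N, f (x * g) = q x) ∧ ∀ x ∈ P, f (x * g) = p x) := by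
  by_contra hcon
  push Not at hcon
  exact not_T4_of_patch hμ (fun M hM a => hf M (Order.lt_succ_iff.1 hM) a) hβ b hb P hP p
    (fun N hN hNP a => hcon N hN hNP a) hn

end Pool.Agent.Results.MP_bc88c0_gt.NowhereFull
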