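import Pool.Agent.K351.Small
import Pool.Agent.K351.Separation

/-!
# No Korovin orbit of a group of cardinality `ℵ₁` is normal

The space `X` is arbitrary, with at least two points.
-/

namespace Pool.Agent.Results.MP_bc88c0_gt.OrderAlephOne

open Cardinal Pool.Agent.K351

universe u v

theorem result {G : Type u} {X : Type v} [CommGroup G] [TopologicalSpace X] [Nontrivial X]
    (hG : #G = ℵ₁) (f : G → X) (hf : IsKorovin f) :
    ¬ T4Space (orbit f) := by
  intro h
  have hreg : (#G).IsRegular := by rw [hG]; exact isRegular_aleph_one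
  have hunc : ℵ₀ < #G := by rw [hG]; exact aleph0_lt_aleph_one
  have hf' : FullBelow (#G) f := by
    intro M hM a
    refine hf M ?_ a
    rw [← le_aleph0_iff_set_countable]
    rw [hG, ← succ_aleph0] at hM
    exact Order.lt_succ_iff.1 hM
  obtain ⟨O, o, c, hO, ho, hc⟩ := exists_open_of_T1 hunc.le hf'
  exact not_normal_of_full hreg hunc hf' hO ho hc inferInstance

end Pool.Agent.Results.MP_bc88c0_gt.OrderAlephOne
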